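import Pool.Agent.Helper43.AX.St

/-!
# Project AX (MP_b3ce06_al), module GY: field theory in prime degree
-/

set_option autoImplicit false

namespace Pool.Agent.Helper81.AX

open Pool.Agent.Helper43.AX Pool.Agent.Helper43.GD

theorem gy_field (p : ℕ) (L : Type) [Field L] [CharP L p] (hp : p.Prime)
    (hc : Nat.card L = p ^ p) (hfrob : ∀ y : L, y ^ (p ^ p) = y) (y : L) :
    ((∃ m : ℤ, y = (m : L)) ∨ Gn y) ∧
      (y ≠ 0 → ∃ m : ℤ, y ^ ((p ^ p - 1) / (p - 1)) = (m : L)) := by
  have : Fact p.Prime := ⟨hp⟩
  have hfin : Finite L := by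
    apply Nat.finite_of_card_ne_zero
    rw [hc]
    exact pow_ne_zero _ hp.ne_zero
  let _ : Algebra (ZMod p) L := ZMod.algebra L p
  have hfr : Module.finrank (ZMod p) L = p := by
    have h1 := Module.natCard_eq_pow_finrank (K := ZMod p) (V := L)
    rw [hc, Nat.card_zmod] at h1
    exact (Nat.pow_right_injective hp.two_le h1).symm
  constructor
  · have hs := Subalgebra.isSimpleOrder_of_finrank_prime (ZMod p) L (by rw [hfr]; exact hp)
    rcases hs.eq_bot_or_eq_top (Algebra.adjoin (ZMod p) {y}) with h | h
    · left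
      have h1 : y ∈ Algebra.adjoin (ZMod p) {y} := Algebra.subset_adjoin rfl
      rw [h, Algebra.mem_bot] at h1
      obtain ⟨a, ha⟩ := h1
      obtain ⟨m, rfl⟩ := ZMod.intCast_surjective a
      exact ⟨m, by rw [← ha, map_intCast]⟩
    · right
      intro N h1 hN z
      have hz : z ∈ Algebra.adjoin (ZMod p) {y} := by
        rw [h]
        exact Algebra.mem_top
      rw [Algebra.adjoin_singleton_eq_range_aeval] at hz
      obtain ⟨f, rfl⟩ := hz
      have hint : ∀ m : ℤ, (m : L) ∈ N := by
        intro m
        have := N.zsmul_mem h1 m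
        rwa [zsmul_one] at this
      refine Polynomial.induction_on f ?_ ?_ ?_
      · intro a
        obtain ⟨m, rfl⟩ := ZMod.intCast_surjective a
        simpa using hint m
      · intro f g hf hg
        rw [map_add]
        exact N.add_mem hf hg
      · intro k a hk
        have h2 := hN _ hk
        have h3 : (Polynomial.aeval y : Polynomial (ZMod p) →ₐ[ZMod p] L)
            (Polynomial.C a * Polynomial.X ^ (k + 1)) =
            y * Polynomial.aeval y (Polynomial.C a * Polynomial.X ^ k) := by
          rw [pow_succ, ← mul_assoc, map_mul, Polynomial.aeval_X, mul_comm]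
        exact h3 ▸ h2
  · intro hy
    obtain ⟨z, hz⟩ : ∃ z, z = y ^ ((p ^ p - 1) / (p - 1)) := ⟨_, rfl⟩
    rw [← hz]
    have h1 : z ^ (p - 1) = 1 := by
      have h2 : (p - 1) ∣ p ^ p - 1 := by simpa using Nat.sub_dvd_pow_sub_pow p 1 p
      rw [hz, ← pow_mul, Nat.div_mul_cancel h2]
      have h3 : y ^ (p ^ p - 1) * y = y := by
        rw [← pow_succ, Nat.sub_add_cancel (Nat.one_le_pow _ _ hp.pos)]
        exact hfrob y
      exact mul_right_cancel₀ hy (h3.trans (one_mul y).symm)
    have h2 : z ^ p = z := by
      rw [← Nat.sub_add_cancel hp.one_le, pow_succ, h1, one_mul]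
    have h3 := (Subfield.mem_bot_iff_pow_eq_self L p).2 h2
    rw [mem_bot_iff_intCast p L] at h3
    obtain ⟨m, hm⟩ := h3
    exact ⟨m, hm.symm⟩

/-- GY. -/
theorem hGY : StGY := by
  intro p L _ x h y
  have hp := h.pr
  have hnt : Nontrivial L := by
    have hfin : Finite L := by
      apply Nat.finite_of_card_ne_zero
      rw [h.card]
      exact pow_ne_zero _ hp.ne_zero
    rw [← Finite.one_lt_card_iff_nontrivial, h.card]
    exact Nat.one_lt_pow hp.ne_zero hp.one_lt
  have hch : CharP L p := by
    have h1 : ringChar L ∣ p := (ringChar.spec L p).1 (by exact_mod_cast h.char)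
    have h2 : ringChar L ≠ 1 := by
      intro h3
      have h4 := ringChar.spec L 1
      rw [h3] at h4
      have h5 := h4.2 dvd_rfl
      rw [Nat.cast_one] at h5
      exact one_ne_zero h5
    have h3 : ringChar L = p := ((Nat.dvd_prime hp).1 h1).resolve_left h2
    rw [← h3]
    exact ringChar.charP L
  let hf : Field L := Field.ofIsUnitOrEqZero (fun a => by
    by_cases ha : a = 0
    · exact Or.inr ha
    · exact Or.inl (h.unit a ha))
  exact @gy_field p L hf hch hp h.card h.frob y

end Pool.Agent.Helper81.AX
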